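import Pool.Agent.Helper69.MC.StA

/-!
# Project MC, module SLB
-/

set_option autoImplicit false

open Set Topology Filter MeasureTheory
open Pool.Agent.Helper31.CY Pool.Agent.Helper69.MF Pool.Agent.Helper69.MC

namespace Pool.Agent.Helper42.MC

private lemma ex3 {x y : E3} (h0 : x 0 = y 0) (h1 : x 1 = y 1) (h2 : x 2 = y 2) : x = y := by
  ext i
  fin_cases i
  · exact h0
  · exact h1
  · exact h2

private lemma q0 (a b c : ℝ) : pt a b c 0 = a := by simp [pt]

private lemma q1 (a b c : ℝ) : pt a b c 1 = b := by simp [pt]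

private lemma q2 (a b c : ℝ) : pt a b c 2 = c := by simp [pt]

private lemma co_dist (x p : E3) (i : Fin 3) : |x i - p i| ≤ dist x p := by
  rw [dist_eq_norm]
  have h := PiLp.norm_apply_le (x - p) i
  rw [Real.norm_eq_abs] at h
  exact h

private lemma cont_pt (c : ℝ) : Continuous (fun q : ℝ × ℝ => pt q.1 q.2 c) := by
  unfold pt
  refine (PiLp.continuous_toLp 2 _).comp ?_
  refine continuous_pi fun i => ?_
  fin_cases i
  · simpa using continuous_fst
  · simpa using continuous_snd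
  · simpa using continuous_const

private lemma cont_co (i : Fin 3) : Continuous (fun x : E3 => x i) := by fun_prop

/-- a compact set is nowhere flat at a level which is flat at all of its points -/
private lemma flat_level (T : Set E3) (hT : IsCompact T) (m : ℝ)
    (hflat : ∀ p ∈ T, p 2 = m → ∃ r : ℝ, 0 < r ∧ ∀ x : E3, dist x p < r → (x ∈ T ↔ x 2 = m)) :
    ∀ p ∈ T, p 2 ≠ m := by
  intro p hp hpm
  set W : Set (ℝ × ℝ) := {q | pt q.1 q.2 m ∈ T} with hW
  have hcl : IsClosed W := hT.isClosed.preimage (cont_pt m)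
  have hop : IsOpen W := by
    rw [isOpen_iff_mem_nhds]
    intro q hq
    obtain ⟨r, hr, h⟩ := hflat _ hq (q2 _ _ _)
    have h1 : (fun q : ℝ × ℝ => pt q.1 q.2 m) ⁻¹' (Metric.ball (pt q.1 q.2 m) r) ∈ 𝓝 q :=
      (cont_pt m).continuousAt.preimage_mem_nhds (Metric.ball_mem_nhds _ hr)
    filter_upwards [h1] with q' hq'
    exact (h _ hq').2 (q2 _ _ _)
  have hne : W.Nonempty := by
    refine ⟨(p 0, p 1), ?_⟩
    show pt (p 0) (p 1) m ∈ T
    have : pt (p 0) (p 1) m = p := ex3 (q0 _ _ _) (q1 _ _ _) (by rw [q2, hpm])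
    rw [this]; exact hp
  have huniv : W = univ := IsClopen.eq_univ ⟨hcl, hop⟩ hne
  obtain ⟨R, hR⟩ := hT.isBounded.subset_closedBall (0 : E3)
  have h2 : pt (R + 1) 0 m ∈ T := by
    have : ((R + 1, 0) : ℝ × ℝ) ∈ W := by rw [huniv]; trivial
    exact this
  have h3 := hR h2
  rw [Metric.mem_closedBall] at h3
  have h4 := co_dist (pt (R + 1) 0 m) 0 0
  rw [q0] at h4
  have h5 : (0 : E3) 0 = 0 := rfl
  rw [h5, sub_zero] at h4
  have := le_abs_self (R + 1)
  linarith

private lemma side_of {s : ℝ} (hs : s = 1 ∨ s = -1) (S : Set E3) (p : E3)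
    (h : ∃ r : ℝ, 0 < r ∧ ∀ x ∈ S, dist x p < r → s * p 2 ≤ s * x 2) :
    (∃ r : ℝ, 0 < r ∧ ∀ x ∈ S, dist x p < r → p 2 ≤ x 2) ∨
    (∃ r : ℝ, 0 < r ∧ ∀ x ∈ S, dist x p < r → x 2 ≤ p 2) := by
  obtain ⟨r, hr, h⟩ := h
  rcases hs with hs | hs
  · left
    refine ⟨r, hr, fun x hx hd => ?_⟩
    have := h x hx hd
    rw [hs] at this
    linarith
  · right
    refine ⟨r, hr, fun x hx hd => ?_⟩
    have := h x hx hd
    rw [hs] at this
    linarith

private lemma main_lemma (hHSS : StHSS) (hCLO : StCLO) (hBNB : StBNB) (hHPL : StHPL)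
    (K : Set (ℝ × ℝ)) (hK : CB K) (c c' s : ℝ) (hs : s = 1 ∨ s = -1) (hcc : c ≠ c')
    (S G : Set E3) (hM : MPS S G) (F1 : ∀ a b : ℝ, pt a b c ∈ G ↔ (a, b) ∈ frontier K)
    (F1' : ∀ x ∈ G, x 2 = c ∨ x 2 = c')
    (F2 : ∀ p ∈ S, p ∉ G → (p 2 = c ∨ p 2 = c') →
      ∃ r : ℝ, 0 < r ∧ ∀ x : E3, dist x p < r → (x ∈ S ↔ x 2 = p 2))
    (F3 : ∀ x ∈ S, s * c ≤ s * x 2 ∧ s * x 2 ≤ s * c')
    (hSing : Sing S G) : ∀ p ∈ S, p ∉ G → p 2 ≠ c := by
  intro p hp hpG hpc
  have hScl : IsClosed S := hM.cpt.isClosed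
  have hse : ∀ x : E3, x = pt (x 0) (x 1) (x 2) := fun x =>
    ex3 (q0 _ _ _).symm (q1 _ _ _).symm (q2 _ _ _).symm
  -- one side of flat points
  have flat_side : ∀ x ∈ S, (∃ r : ℝ, 0 < r ∧ ∀ y : E3, dist y x < r → (y ∈ S ↔ y 2 = x 2)) →
      ((∃ r : ℝ, 0 < r ∧ ∀ y ∈ S, dist y x < r → x 2 ≤ y 2) ∨
        (∃ r : ℝ, 0 < r ∧ ∀ y ∈ S, dist y x < r → y 2 ≤ x 2)) := by
    intro x _ h
    obtain ⟨r, hr, h⟩ := h
    left
    refine ⟨r, hr, fun y hy hd => ?_⟩
    rw [(h y hd).1 hy]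
  have reg_of : ∀ x ∈ S, x ∉ G →
      ((∃ r : ℝ, 0 < r ∧ ∀ y ∈ S, dist y x < r → x 2 ≤ y 2) ∨
        (∃ r : ℝ, 0 < r ∧ ∀ y ∈ S, dist y x < r → y 2 ≤ x 2)) → RegP S x := by
    intro x hx hxG hside
    rcases hM.int x hx hxG with h | h
    · exact h
    · exact absurd hside (hHSS S x h)
  -- the flat part at height `c`
  set C : Set (ℝ × ℝ) := {q | pt q.1 q.2 c ∈ S ∧ (q.1, q.2) ∉ frontier K} with hC
  have hCop : IsOpen C := by
    rw [isOpen_iff_mem_nhds]
    intro q hq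
    have hqG : pt q.1 q.2 c ∉ G := fun h => hq.2 ((F1 _ _).1 h)
    obtain ⟨r, hr, h⟩ := F2 _ hq.1 hqG (Or.inl (q2 _ _ _))
    have h1 : (fun q : ℝ × ℝ => pt q.1 q.2 c) ⁻¹' (Metric.ball (pt q.1 q.2 c) r) ∈ 𝓝 q :=
      (cont_pt c).continuousAt.preimage_mem_nhds (Metric.ball_mem_nhds _ hr)
    have h2 : (frontier K)ᶜ ∈ 𝓝 q := isClosed_frontier.isOpen_compl.mem_nhds hq.2
    filter_upwards [h1, h2] with q' hq' hq2
    refine ⟨(h _ hq').2 ?_, hq2⟩
    rw [q2, q2]
  have hCbd : Bornology.IsBounded C := by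
    obtain ⟨R, hR⟩ := hM.cpt.isBounded.subset_closedBall (0 : E3)
    refine (Metric.isBounded_closedBall (x := (0 : ℝ × ℝ)) (r := R)).subset ?_
    intro q hq
    have h3 := hR hq.1
    rw [Metric.mem_closedBall] at h3
    have h4 := co_dist (pt q.1 q.2 c) 0 0
    have h5 := co_dist (pt q.1 q.2 c) 0 1
    rw [q0] at h4
    rw [q1] at h5
    rw [Metric.mem_closedBall, Prod.dist_eq]
    refine max_le ?_ ?_
    · rw [Real.dist_eq]
      exact le_trans h4 h3
    · rw [Real.dist_eq]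
      exact le_trans h5 h3
  have hCcl : closure C \ C ⊆ frontier K := by
    rintro q ⟨hq, hqC⟩
    have h1 : pt q.1 q.2 c ∈ S := by
      have h2 : closure C ⊆ (fun q : ℝ × ℝ => pt q.1 q.2 c) ⁻¹' S :=
        closure_minimal (fun q' hq' => hq'.1) (hScl.preimage (cont_pt c))
      exact h2 hq
    by_contra hf
    exact hqC ⟨h1, hf⟩
  have hCdj : C ∩ frontier K = ∅ := by
    ext q
    constructor
    · rintro ⟨h1, h2⟩
      exact absurd h2 h1.2
    · intro h; exact absurd h (notMem_empty _)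
  have hpC : ((p 0, p 1) : ℝ × ℝ) ∈ C := by
    refine ⟨?_, ?_⟩
    · show pt (p 0) (p 1) c ∈ S
      rw [← hpc, ← hse p]; exact hp
    · show (p 0, p 1) ∉ frontier K
      intro h
      rw [← F1, ← hpc, ← hse p] at h
      exact hpG h
  have hCint : C = interior K := by
    rcases (hCLO K hK).2.2.2 C hCop hCbd hCcl hCdj with h | h
    · rw [h] at hpC; exact absurd hpC (notMem_empty _)
    · exact h
  -- the part of `S` at the other heights is closed
  set T : Set E3 := {x | x ∈ S ∧ x 2 ≠ c} with hT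
  have hTcl : IsClosed T := by
    rw [← closure_subset_iff_isClosed]
    intro x hx
    have hxS : x ∈ S := by
      have h : closure T ⊆ S := closure_minimal (fun y hy => hy.1) hScl
      exact h hx
    refine ⟨hxS, ?_⟩
    intro hxc
    by_cases hxG : x ∈ G
    · obtain ⟨E, V, hV, hxV, hE, hES, hSV, hreg⟩ := hBNB S G hM x hxG
      -- a point of the flat part in `V`
      have hfr : ((x 0, x 1) : ℝ × ℝ) ∈ frontier K := by
        rw [← F1, ← hxc, ← hse x]; exact hxG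
      have hcli : ((x 0, x 1) : ℝ × ℝ) ∈ closure (interior K) := by
        rw [hK.2.1.closure_interior_eq_closure_of_nonempty_interior hK.2.2]
        exact frontier_subset_closure hfr
      have hVn : (fun q : ℝ × ℝ => pt q.1 q.2 c) ⁻¹' V ∈ 𝓝 ((x 0, x 1) : ℝ × ℝ) := by
        apply (cont_pt c).continuousAt.preimage_mem_nhds
        apply hV.mem_nhds
        show pt (x 0) (x 1) c ∈ V
        rw [← hxc, ← hse x]; exact hxV
      obtain ⟨q, hq1, hq2⟩ := mem_closure_iff_nhds.1 hcli _ hVn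
      have hqC : q ∈ C := by rw [hCint]; exact hq2
      have hqG : pt q.1 q.2 c ∉ G := fun h => hqC.2 ((F1 _ _).1 h)
      have hqE : pt q.1 q.2 c ∈ E := by
        apply hreg _ ⟨hqC.1, hq1⟩
        exact reg_of _ hqC.1 hqG (flat_side _ hqC.1 (F2 _ hqC.1 hqG (Or.inl (q2 _ _ _))))
      -- `E` is at height `c`
      have hEc : ∀ y ∈ E, y 2 = c := by
        by_contra hne
        push Not at hne
        obtain ⟨y, hyE, hyc⟩ := hne
        set U1 : Set E3 := ⋃ z ∈ {z | z ∈ E ∧ z 2 = c}, interior {w | w ∈ S → w 2 = c} with hU1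
        have hU1' : IsOpen (interior {w : E3 | w ∈ S → w 2 = c}) := isOpen_interior
        have hU2 : IsOpen {w : E3 | w 2 ≠ c} := isOpen_ne_fun (cont_co 2) continuous_const
        have hin : ∀ z ∈ E, z 2 = c → z ∈ interior {w : E3 | w ∈ S → w 2 = c} := by
          intro z hz hzc
          obtain ⟨r, hr, h⟩ := F2 z (hES hz).1 (hES hz).2 (Or.inl hzc)
          rw [mem_interior_iff_mem_nhds]
          filter_upwards [Metric.ball_mem_nhds z hr] with w hw hwS
          rw [(h w hw).1 hwS, hzc]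
        have hcov : E ⊆ interior {w : E3 | w ∈ S → w 2 = c} ∪ {w : E3 | w 2 ≠ c} := by
          intro z hz
          by_cases hzc : z 2 = c
          · left; exact hin z hz hzc
          · right; exact hzc
        obtain ⟨w, hwE, hw1, hw2⟩ := hE _ _ hU1' hU2 hcov
          ⟨_, hqE, hin _ hqE (q2 _ _ _)⟩ ⟨y, hyE, hyc⟩
        exact hw2 (interior_subset hw1 (hES hwE).1)
      obtain ⟨y, hyV, hyT⟩ := mem_closure_iff_nhds.1 hx V (hV.mem_nhds hxV)
      have h1 : y ∈ closure E := hSV ⟨hyT.1, hyV⟩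
      have h2 : closure E ⊆ {w : E3 | w 2 = c} :=
        closure_minimal hEc (isClosed_eq (cont_co 2) continuous_const)
      exact hyT.2 (h2 h1)
    · obtain ⟨r, hr, h⟩ := F2 x hxS hxG (Or.inl hxc)
      obtain ⟨y, hy1, hy2⟩ := mem_closure_iff_nhds.1 hx _ (Metric.ball_mem_nhds x hr)
      apply hy2.2
      rw [(h y hy1).1 hy2.1, hxc]
  have hTco : IsCompact T := hM.cpt.of_isClosed_subset hTcl (fun x hx => hx.1)
  -- the singular point
  obtain ⟨y, hyS, hyG, hym⟩ := hSing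
  have hynot : ¬ (y 2 = c ∨ y 2 = c') := by
    intro h
    exact hHSS S y hym (flat_side y hyS (F2 y hyS hyG h))
  push Not at hynot
  have hyT : y ∈ T := ⟨hyS, hynot.1⟩
  obtain ⟨z, hzT, hzmin⟩ := hTco.exists_isMinOn ⟨y, hyT⟩
    (f := fun x : E3 => s * x 2) (by fun_prop : Continuous fun x : E3 => s * x 2).continuousOn
  have hs0 : s ≠ 0 := by rcases hs with h | h <;> rw [h] <;> norm_num
  have hzc : z 2 ≠ c := hzT.2
  have hzc' : z 2 ≠ c' := by
    intro h
    have h1 : s * z 2 ≤ s * y 2 := hzmin hyT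
    have h2 := (F3 y hyS).2
    rw [h] at h1
    have h3 : s * y 2 = s * c' := le_antisymm h2 h1
    exact hynot.2 (mul_left_cancel₀ hs0 h3)
  refine flat_level T hTco (z 2) ?_ z hzT rfl
  intro w hwT hwz
  have hwG : w ∉ G := by
    intro h
    rcases F1' w h with h | h
    · exact hzc (by rw [← hwz, h])
    · exact hzc' (by rw [← hwz, h])
  -- near `w`, `S = T`
  have hd : 0 < |w 2 - c| := abs_pos.2 (sub_ne_zero.2 hwT.2)
  have hnear : ∀ x : E3, dist x w < |w 2 - c| → x 2 ≠ c := by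
    intro x hx hxc
    have := co_dist x w 2
    rw [hxc] at this
    rw [abs_sub_comm] at this
    linarith
  have hside : ∃ r : ℝ, 0 < r ∧ ∀ x ∈ S, dist x w < r → s * w 2 ≤ s * x 2 := by
    refine ⟨|w 2 - c|, hd, ?_⟩
    intro x hx hdx
    rw [hwz]
    exact hzmin (⟨hx, hnear x hdx⟩ : x ∈ T)
  have hside2 := side_of hs S w hside
  have hwreg := reg_of w hwT.1 hwG hside2
  obtain ⟨r, hr, h⟩ := hHPL S w hwT.1 hwreg hside2
  refine ⟨min r |w 2 - c|, lt_min hr hd, ?_⟩
  intro x hx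
  have hx1 : dist x w < r := lt_of_lt_of_le hx (min_le_left _ _)
  have hx2 : dist x w < |w 2 - c| := lt_of_lt_of_le hx (min_le_right _ _)
  rw [← hwz, ← h x hx1]
  exact ⟨fun h => h.1, fun h => ⟨h, hnear x hx2⟩⟩

theorem hSLB : StHUL → StHSS → StCLO → StBNB → StHPL → StSLB := by
  intro hHUL hHSS hCLO hBNB hHPL K0 K1 h h0 hK0 hK1 S hM hSing x hxS hxG
  obtain ⟨hA, hB⟩ := hHUL K0 K1 h h0 S hM
  have F1' : ∀ x ∈ Gm K0 K1 h, x 2 = 0 ∨ x 2 = h := by
    rintro x (⟨_, h⟩ | ⟨_, h⟩)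
    · exact Or.inl h
    · exact Or.inr h
  have e0 : x 2 ≠ 0 := by
    refine main_lemma hHSS hCLO hBNB hHPL K0 hK0 0 h 1 (Or.inl rfl) h0.ne S (Gm K0 K1 h) hM ?_ F1' ?_ ?_
      hSing x hxS hxG
    · intro a b
      constructor
      · rintro (⟨h1, h2⟩ | ⟨h1, h2⟩)
        · simpa [q0, q1] using h1
        · rw [q2] at h2
          exact absurd h2 h0.ne
      · intro hab
        left
        exact ⟨by simpa [q0, q1] using hab, q2 _ _ _⟩
    · intro p hp hpG hpc
      exact hB p hp hpG hpc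
    · intro y hy
      have := hA y hy
      constructor <;> linarith [this.1, this.2]
  have e1 : x 2 ≠ h := by
    refine main_lemma hHSS hCLO hBNB hHPL K1 hK1 h 0 (-1) (Or.inr rfl) h0.ne' S (Gm K0 K1 h) hM ?_
      (fun x hx => (F1' x hx).symm) ?_ ?_ hSing x hxS hxG
    · intro a b
      constructor
      · rintro (⟨h1, h2⟩ | ⟨h1, h2⟩)
        · rw [q2] at h2
          exact absurd h2 h0.ne'
        · simpa [q0, q1] using h1
      · intro hab
        right
        exact ⟨by simpa [q0, q1] using hab, q2 _ _ _⟩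
    · intro p hp hpG hpc
      exact hB p hp hpG hpc.symm
    · intro y hy
      have := hA y hy
      constructor <;> linarith [this.1, this.2]
  have := hA x hxS
  exact ⟨lt_of_le_of_ne this.1 (Ne.symm e0), lt_of_le_of_ne this.2 e1⟩

end Pool.Agent.Helper42.MC
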